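import Pool.Agent.X92.Walsh3

/-!
# The means `U^α_{2^n}` are unbounded at the endpoint `p = 1/(1+α)`

Negative answer to MP_d27c5e_an, Q1, for every `α ∈ (0,1)`.
-/

open MeasureTheory Filter Topology Finset
open scoped ENNReal NNReal
open Pool.Agent.X92.Walsh

noncomputable section

namespace Pool.Agent.Results.MP_d27c5e_an.UalphaUnbounded

/-- `Q_n = ∑_{k=1}^n k^{α-1}`. -/
def qsum (α : ℝ) (n : ℕ) : ℝ := ∑ k ∈ Icc 1 n, (k : ℝ) ^ (α - 1)

/-- `U_n^α f = Q_n⁻¹ ∑_{k=1}^n (n+1-k)^{α-1} S_k f`. -/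
def uMean (α : ℝ) (n : ℕ) (f : ℕ → G → ℝ) (x : G) : ℝ :=
  (qsum α n)⁻¹ * ∑ k ∈ Icc 1 n, ((n : ℝ) + 1 - k) ^ (α - 1) * psum f k x

lemma qsum_pos (α : ℝ) {n : ℕ} (hn : 1 ≤ n) : 0 < qsum α n := by
  unfold qsum
  apply sum_pos
  · intro k hk
    have : 0 < k := by have := (mem_Icc.mp hk).1; omega
    positivity
  · exact ⟨1, mem_Icc.mpr ⟨le_rfl, hn⟩⟩

lemma qsum_up {α : ℝ} (hα : 0 < α) (hα1 : α < 1) (n : ℕ) (hn : 1 ≤ n) :
    qsum α n ≤ (1 / α) * (n : ℝ) ^ α := by
  induction n, hn using Nat.le_induction with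
  | base =>
    unfold qsum
    simp only [Icc_self, sum_singleton, Nat.cast_one, Real.one_rpow, mul_one]
    rw [le_div_iff₀ hα]
    linarith
  | succ n hn ih =>
    have hn0 : (0 : ℝ) < n := by exact_mod_cast hn
    have h0 : qsum α (n + 1) = qsum α n + (((n + 1 : ℕ) : ℝ)) ^ (α - 1) := by
      unfold qsum
      rw [sum_Icc_succ_top (by omega)]
    rw [h0]
    have h1 := rpow_one_add_le_one_add_mul_self (s := -(1 / ((n : ℝ) + 1))) (p := α)
      (by
        have : 1 / ((n : ℝ) + 1) ≤ 1 := by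
          rw [div_le_one (by positivity)]; linarith
        linarith) (by linarith) (by linarith)
    have h2 : 1 + -(1 / ((n : ℝ) + 1)) = n / (n + 1) := by field_simp; ring
    rw [h2, Real.div_rpow (by positivity) (by positivity), div_le_iff₀ (by positivity)] at h1
    have h3 : ((n : ℝ) + 1) ^ (α - 1) = ((n : ℝ) + 1) ^ α / (n + 1) := by
      rw [Real.rpow_sub (by positivity), Real.rpow_one]
    push_cast
    rw [h3]
    have h4 : (1 / α) * (n : ℝ) ^ α ≤ (1 / α) * ((1 + α * -(1 / ((n : ℝ) + 1))) * ((n : ℝ) + 1) ^ α) :=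
      mul_le_mul_of_nonneg_left h1 (by positivity)
    have h5 : (1 / α) * ((1 + α * -(1 / ((n : ℝ) + 1))) * ((n : ℝ) + 1) ^ α)
        = (1 / α) * ((n : ℝ) + 1) ^ α - ((n : ℝ) + 1) ^ α / (n + 1) := by
      field_simp
      ring
    linarith

/-- **Negative answer to MP_d27c5e_an, Q1, for every `α ∈ (0,1)`.** With `p = 1/(1+α)`, for every
constant `C` there are a martingale `f ∈ H_p` and `n` with `‖U^α_{2^n} f‖_p > C ‖f‖_{H_p}`. -/
theorem result (α : ℝ) (hα : 0 < α) (hα1 : α < 1) (C : ℝ≥0) :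
    ∃ (f : ℕ → G → ℝ) (n : ℕ), MemHp (1 / (1 + α)) f ∧
      (C : ℝ≥0∞) * hpNorm (1 / (1 + α)) f < lpNorm (1 / (1 + α)) (uMean α (2 ^ n) f) := by
  have hanti : Antitone (fun n : ℕ => ((n : ℝ) + 1) ^ (α - 1)) := by
    intro m n hmn
    apply Real.rpow_le_rpow_of_nonpos (by positivity)
    · have : (m : ℝ) ≤ n := by exact_mod_cast hmn
      linarith
    · linarith
  obtain ⟨f, n, hf, h⟩ := unbounded (b := fun n : ℕ => ((n : ℝ) + 1) ^ (α - 1)) hanti
    (fun n => by positivity) hα hα1 (c := 2 ^ (α - 1)) (by positivity)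
    (c1 := 1 - (3 / 2 : ℝ) ^ (α - 1))
    (by
      have : (3 / 2 : ℝ) ^ (α - 1) < 1 := Real.rpow_lt_one_of_one_lt_of_neg (by norm_num) (by linarith)
      linarith) (C3 := 1 / α) (by positivity)
    (by
      intro n hn
      have hn0 : (1 : ℝ) ≤ n := by exact_mod_cast hn
      rw [← Real.mul_rpow (by norm_num) (by positivity)]
      apply Real.rpow_le_rpow_of_nonpos (by positivity) (by linarith) (by linarith))
    (by
      intro n k hn hk
      have hn0 : (1 : ℝ) ≤ n := by exact_mod_cast hn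
      have hk0 : (n : ℝ) ≤ k := by exact_mod_cast hk
      have h1 : (((n + k : ℕ) : ℝ) + 1) ^ (α - 1) ≤ (3 / 2 * ((n : ℝ) + 1)) ^ (α - 1) := by
        apply Real.rpow_le_rpow_of_nonpos (by positivity) _ (by linarith)
        push_cast
        linarith
      rw [Real.mul_rpow (by norm_num) (by positivity)] at h1
      linarith)
    (qsum α) (fun n hn => qsum_pos α hn) (qsum_up hα hα1) C
  refine ⟨f, n, hf, ?_⟩
  have hfun : uMean α (2 ^ n) f = fun x => (qsum α (2 ^ n))⁻¹ *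
      ∑ k ∈ Icc 1 (2 ^ n), (((2 ^ n - k : ℕ) : ℝ) + 1) ^ (α - 1) * psum f k x := by
    funext x
    unfold uMean
    congr 1
    apply sum_congr rfl
    intro k hk
    have hk' := (mem_Icc.mp hk).2
    rw [Nat.cast_sub hk']
    congr 2
    ring
  rw [hfun]
  exact h

end Pool.Agent.Results.MP_d27c5e_an.UalphaUnbounded
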